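import Mathlib

set_option autoImplicit false

namespace Pool.Agent.H.MP_695dce_co

open Finset

lemma cell_eq {h t : ℝ} (hh : 0 < h) {a b : ℕ} (h1 : a * h < t) (h2 : t < (a + 1) * h)
    (h3 : b * h < t) (h4 : t < (b + 1) * h) : a = b := by
  have e1 : (a : ℝ) < b + 1 := lt_of_mul_lt_mul_right (h1.trans h4) hh.le
  have e2 : (b : ℝ) < a + 1 := lt_of_mul_lt_mul_right (h3.trans h2) hh.le
  have e1' : a < b + 1 := by exact_mod_cast e1
  have e2' : b < a + 1 := by exact_mod_cast e2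
  omega

lemma exists_cell {h t : ℝ} (hh : 0 < h) (N : ℕ) (hN : 0 < N) (h0 : 0 ≤ t) (h1 : t ≤ N * h) :
    ∃ a : ℕ, a < N ∧ a * h ≤ t ∧ t ≤ (a + 1) * h := by
  by_cases hlt : t < N * h
  · refine ⟨⌊t / h⌋₊, ?_, ?_, ?_⟩
    · rw [Nat.floor_lt (div_nonneg h0 hh.le), div_lt_iff₀ hh]; exact hlt
    · have := Nat.floor_le (div_nonneg h0 hh.le)
      rwa [le_div_iff₀ hh] at this
    · have := (Nat.lt_floor_add_one (t / h)).le
      rwa [div_le_iff₀ hh] at this
  · have ht : t = N * h := le_antisymm h1 (not_lt.mp hlt)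
    obtain ⟨M, rfl⟩ : ∃ M, N = M + 1 := ⟨N - 1, by omega⟩
    refine ⟨M, by omega, ?_, ?_⟩
    · rw [ht]; push_cast; nlinarith
    · rw [ht]; push_cast; exact le_rfl

/-- arithmetic: the numbers of blocks -/
lemma exists_yz (t r : ℕ) : ∃ y z : ℕ, y < 3 * t ^ 2 + 3 * t + 1 ∧
    z * (3 * t ^ 2 + 3 * t + 1) = r + y * (3 * t ^ 2 + 9 * t + 7) := by
  obtain ⟨k, hk⟩ := Int.even_mul_succ_self ((t : ℤ) + 1)
  set A : ℤ := 3 * t ^ 2 + 9 * t + 7 with hA
  set B : ℤ := 3 * t ^ 2 + 3 * t + 1 with hB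
  have hBpos : 0 < B := by positivity
  have bez : A * (1 + 3 * k * t) - B * (3 * k * (t + 2)) = 1 := by
    have : A = 6 * k + 1 := by rw [hA]; linarith
    have h2 : B * (t + 2) - A * t = 2 := by rw [hA, hB]; ring
    linear_combination this - 3 * k * h2
  set y : ℤ := (-(r : ℤ) * (1 + 3 * k * t)) % B with hy
  have y0 : 0 ≤ y := Int.emod_nonneg _ hBpos.ne'
  have y1 : y < B := Int.emod_lt_of_pos _ hBpos
  have hdiv := Int.emod_add_mul_ediv (-(r : ℤ) * (1 + 3 * k * t)) B
  set u : ℤ := (-(r : ℤ) * (1 + 3 * k * t)) / B with hu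
  have hz : (-(r * (3 * k * (t + 2))) - u * A) * B = r + y * A := by
    have : y = -(r : ℤ) * (1 + 3 * k * t) - B * u := by linarith
    rw [this]; linear_combination (r : ℤ) * bez
  set z : ℤ := -(r * (3 * k * (t + 2))) - u * A with hzdef
  have z0 : 0 ≤ z := by
    have hA0 : 0 ≤ A := by positivity
    have : 0 ≤ z * B := by rw [hz]; positivity
    exact nonneg_of_mul_nonneg_left this hBpos |> fun h => h
  obtain ⟨y', hy'⟩ := Int.eq_ofNat_of_zero_le y0
  obtain ⟨z', hz'⟩ := Int.eq_ofNat_of_zero_le z0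
  refine ⟨y', z', ?_, ?_⟩
  · have : (y' : ℤ) < B := hy' ▸ y1
    rw [hB] at this; exact_mod_cast this
  · rw [hz', hy', hA, hB] at hz; exact_mod_cast hz

/-- the numerical data of the construction -/
lemma exists_data (t n : ℕ) (ht : 12 ≤ t) (hn : (t + 2) ^ 6 ≤ n) :
    ∃ m q y z : ℕ, 0 < m ∧ (t + 2) * q ≤ m ∧ y + z ≤ q ^ 3 ∧
      n + y * (t + 2) ^ 3 + z * t ^ 3 = m ^ 3 + (y + z) * (t + 1) ^ 3 := by
  classical
  have hex : ∃ m : ℕ, n < (m + 1) ^ 3 := ⟨n, by nlinarith [Nat.zero_le n, sq_nonneg n]⟩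
  set m := Nat.find hex with hm
  have h1 : n < (m + 1) ^ 3 := Nat.find_spec hex
  have h2 : m ^ 3 ≤ n := by
    rcases Nat.eq_zero_or_pos m with h | h
    · rw [h]; simp
    · have := Nat.find_min hex (m := m - 1) (by omega)
      rw [Nat.sub_add_cancel h] at this; omega
  have h3 : (t + 2) ^ 2 ≤ m := by
    by_contra hc
    have : m + 1 ≤ (t + 2) ^ 2 := by omega
    have := Nat.pow_le_pow_left this 3
    rw [← pow_mul] at this
    exact absurd (h1.trans_le this) (not_lt.mpr hn)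
  obtain ⟨r, hr⟩ := Nat.exists_eq_add_of_le h2
  obtain ⟨y, z, hy, hz⟩ := exists_yz t r
  set q := m / (t + 2) with hq
  have hq1 : (t + 2) * q ≤ m := Nat.mul_div_le _ _
  have hq2 : m + 1 ≤ (t + 2) * (q + 1) := by
    have := Nat.lt_mul_div_succ m (b := t + 2) (by omega)
    exact this
  have hq3 : t + 2 ≤ q := by
    rw [hq, Nat.le_div_iff_mul_le (by omega)]; nlinarith
  refine ⟨m, q, y, z, by nlinarith, hq1, ?_, ?_⟩
  · have hr1 : r ≤ 3 * (m + 1) ^ 2 := by nlinarith
    have hr2 : (m + 1) ^ 2 ≤ ((t + 2) * (q + 1)) ^ 2 := Nat.pow_le_pow_left hq2 2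
    have hr3 : r ≤ 2 * (q + 1) ^ 2 * (3 * t ^ 2 + 3 * t + 1) := by
      have : 3 * (t + 2) ^ 2 ≤ 2 * (3 * t ^ 2 + 3 * t + 1) := by nlinarith
      calc r ≤ 3 * ((t + 2) * (q + 1)) ^ 2 := by omega
        _ = (3 * (t + 2) ^ 2) * (q + 1) ^ 2 := by ring
        _ ≤ (2 * (3 * t ^ 2 + 3 * t + 1)) * (q + 1) ^ 2 := Nat.mul_le_mul_right _ this
        _ = _ := by ring
    have hz2 : z ≤ 2 * (q + 1) ^ 2 + (3 * t ^ 2 + 9 * t + 7) := by
      have hB : 0 < 3 * t ^ 2 + 3 * t + 1 := by positivity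
      refine Nat.le_of_mul_le_mul_right ?_ hB
      have : y * (3 * t ^ 2 + 9 * t + 7) ≤ (3 * t ^ 2 + 3 * t + 1) * (3 * t ^ 2 + 9 * t + 7) :=
        Nat.mul_le_mul_right _ hy.le
      nlinarith
    have hq14 : 14 ≤ q := by omega
    have a1 : 3 * t ^ 2 + 9 * t + 7 ≤ 3 * q ^ 2 := by nlinarith
    have a2 : 3 * t ^ 2 + 3 * t + 1 ≤ 3 * q ^ 2 := by nlinarith
    have a3 : 2 * (q + 1) ^ 2 ≤ 3 * q ^ 2 := by nlinarith
    have a4 : 14 * q ^ 2 ≤ q ^ 3 := by
      calc 14 * q ^ 2 ≤ q * q ^ 2 := Nat.mul_le_mul_right _ hq14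
        _ = q ^ 3 := by ring
    omega
  · rw [hr]
    zify at hz ⊢
    linear_combination (-1 : ℤ) * hz

abbrev E3 := EuclideanSpace ℝ (Fin 3)

lemma interior_sub (a : E3) (l : ℝ) {x : E3}
    (hx : x ∈ interior {x : E3 | ∀ j, a j ≤ x j ∧ x j ≤ a j + l}) (j : Fin 3) :
    a j < x j ∧ x j < a j + l := by
  rw [mem_interior_iff_mem_nhds, Metric.mem_nhds_iff] at hx
  obtain ⟨ε, hε, hb⟩ := hx
  have key : ∀ δ : ℝ, |δ| < ε → a j ≤ x j + δ ∧ x j + δ ≤ a j + l := by
    intro δ hδ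
    have : x + EuclideanSpace.single j δ ∈ Metric.ball x ε := by
      rw [mem_ball_iff_norm, add_sub_cancel_left, PiLp.norm_single]
      exact hδ
    have := hb this j
    simpa using this
  have k1 := key (ε / 2) (by rw [abs_of_pos (by positivity)]; linarith)
  have k2 := key (-(ε / 2)) (by rw [abs_neg, abs_of_pos (by positivity)]; linarith)
  constructor <;> linarith [k1.2, k2.1]

/-- The construction in the cube of side `m`. -/
lemma construct (t m q y z : ℕ) (ht : 0 < t) (hm : 0 < m) (hq : (t + 2) * q ≤ m)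
    (hyz : y + z ≤ q ^ 3) (n : ℕ)
    (hn : n + y * (t + 2) ^ 3 + z * t ^ 3 = m ^ 3 + (y + z) * (t + 1) ^ 3) :
    ∃ (a : Fin n → Fin 3 → ℝ) (l : Fin n → ℝ),
      (∀ i, l i = 1 ∨ l i = (t + 2) / (t + 1) ∨ l i = t / (t + 1)) ∧
      (∀ i i', ∀ x : Fin 3 → ℝ, (∀ j, a i j < x j ∧ x j < a i j + l i) →
        (∀ j, a i' j < x j ∧ x j < a i' j + l i') → i = i') ∧
      (∀ i j, 0 ≤ a i j ∧ a i j + l i ≤ m) ∧
      (∀ x : Fin 3 → ℝ, (∀ j, 0 ≤ x j ∧ x j ≤ m) →
        ∃ i, ∀ j, a i j ≤ x j ∧ x j ≤ a i j + l i) := by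
  classical
  obtain ⟨σ⟩ : Nonempty (Fin (y + z) ↪ (Fin 3 → Fin q)) :=
    Function.Embedding.nonempty_of_card_le (by simpa using hyz)
  let w : Fin (y + z) → ℕ := fun k => if k.val < y then t + 2 else t
  have hw : ∀ k, w k ≤ t + 2 := fun k => by simp only [w]; split_ifs <;> omega
  have hw0 : ∀ k, 0 < w k := fun k => by simp only [w]; split_ifs <;> omega
  let P : Fin (y + z) → Fin 3 → ℕ := fun k j => (t + 2) * (σ k j).val
  have hP : ∀ k j, P k j + w k ≤ m := fun k j => by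
    have h1 := hw k
    have h2 : (σ k j).val + 1 ≤ q := (σ k j).isLt
    have : (t + 2) * ((σ k j).val + 1) ≤ (t + 2) * q := Nat.mul_le_mul_left _ h2
    simp only [P]; nlinarith
  let Bk : Fin (y + z) → Finset (Fin 3 → ℕ) := fun k =>
    Fintype.piFinset fun j => Finset.Ico (P k j) (P k j + w k)
  let All : Finset (Fin 3 → ℕ) := Fintype.piFinset fun _ => Finset.range m
  let Cov : Finset (Fin 3 → ℕ) := Finset.univ.biUnion Bk
  have hdisj : ∀ k k', ∀ x : Fin 3 → ℝ, (∀ j, (P k j : ℝ) < x j ∧ x j < P k j + w k) →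
      (∀ j, (P k' j : ℝ) < x j ∧ x j < P k' j + w k') → k = k' := by
    intro k k' x h1 h2
    apply σ.injective
    funext j
    apply Fin.ext
    have e1 : (w k : ℝ) ≤ t + 2 := by exact_mod_cast hw k
    have e2 : (w k' : ℝ) ≤ t + 2 := by exact_mod_cast hw k'
    have h1 := h1 j
    have h2 := h2 j
    simp only [P] at h1 h2
    push_cast at h1 h2
    refine cell_eq (h := (t : ℝ) + 2) (t := x j) (by positivity) ?_ ?_ ?_ ?_ <;> nlinarith
  have hCov : Cov.card = y * (t + 2) ^ 3 + z * t ^ 3 := by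
    rw [Finset.card_biUnion]
    · have : ∀ k, (Bk k).card = w k ^ 3 := fun k => by simp [Bk, Fintype.card_piFinset]
      simp only [this]
      rw [Fin.sum_univ_add]
      simp [w]
    · intro k _ k' _ hne
      rw [Function.onFun, Finset.disjoint_left]
      intro c h1 h2
      apply hne
      simp only [Bk, Fintype.mem_piFinset, Finset.mem_Ico] at h1 h2
      refine hdisj k k' (fun j => c j + 1 / 2) (fun j => ?_) (fun j => ?_)
      · have a1 : (P k j : ℝ) ≤ c j := by exact_mod_cast (h1 j).1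
        have a2 : (c j : ℝ) + 1 ≤ P k j + w k := by exact_mod_cast (h1 j).2
        constructor <;> linarith
      · have a1 : (P k' j : ℝ) ≤ c j := by exact_mod_cast (h2 j).1
        have a2 : (c j : ℝ) + 1 ≤ P k' j + w k' := by exact_mod_cast (h2 j).2
        constructor <;> linarith
  have hsub : Cov ⊆ All := by
    intro c hc
    simp only [Cov, Finset.mem_biUnion, Bk, Fintype.mem_piFinset, Finset.mem_Ico] at hc
    obtain ⟨k, -, hk⟩ := hc
    simp only [All, Fintype.mem_piFinset, Finset.mem_range]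
    intro j
    exact (hk j).2.trans_le (hP k j)
  have hAll : All.card = m ^ 3 := by simp [All, Fintype.card_piFinset]
  let ι := ↥(All \ Cov) ⊕ (Fin (y + z) × (Fin 3 → Fin (t + 1)))
  have hcard : Fintype.card ι = n := by
    simp only [ι, Fintype.card_sum, Fintype.card_coe, Fintype.card_prod, Fintype.card_fin,
      Fintype.card_fun]
    rw [Finset.card_sdiff_of_subset hsub]
    have := Finset.card_le_card hsub
    omega
  let e : Fin n ≃ ι := (Fintype.equivFinOfCardEq hcard).symm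
  let h : Fin (y + z) → ℝ := fun k => (w k : ℝ) / (t + 1)
  have hh : ∀ k, 0 < h k := fun k => by
    have : (0 : ℝ) < w k := by exact_mod_cast hw0 k
    positivity
  have hht : ∀ k, ((t + 1 : ℕ) : ℝ) * h k = w k := fun k => by
    simp only [h]; push_cast; field_simp
  let a : ι → Fin 3 → ℝ := Sum.elim (fun c j => (c.1 j : ℝ))
    (fun p j => P p.1 j + (p.2 j).val * h p.1)
  let l : ι → ℝ := Sum.elim (fun _ => 1) (fun p => h p.1)
  have hin : ∀ (k : Fin (y + z)) (d : Fin 3 → Fin (t + 1)) (j : Fin 3),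
      (P k j : ℝ) ≤ P k j + (d j).val * h k ∧ P k j + (d j).val * h k + h k ≤ P k j + w k := by
    intro k d j
    have a1 : ((d j).val : ℝ) + 1 ≤ ((t + 1 : ℕ) : ℝ) := by exact_mod_cast (d j).isLt
    have a2 := hht k
    have a3 := hh k
    have a4 : (0 : ℝ) ≤ (d j).val := Nat.cast_nonneg _
    constructor <;> nlinarith
  have mixed : ∀ (c : ↥(All \ Cov)) (k : Fin (y + z)) (d : Fin 3 → Fin (t + 1)) (x : Fin 3 → ℝ),
      (∀ j, (c.1 j : ℝ) < x j ∧ x j < c.1 j + 1) →
      (∀ j, P k j + (d j).val * h k < x j ∧ x j < P k j + (d j).val * h k + h k) → False := by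
    intro c k d x h1 h2
    apply (Finset.mem_sdiff.mp c.2).2
    simp only [Cov, Finset.mem_biUnion, Bk, Fintype.mem_piFinset, Finset.mem_Ico]
    refine ⟨k, Finset.mem_univ _, fun j => ?_⟩
    have b1 := hin k d j
    have b2 : (P k j : ℝ) < c.1 j + 1 := by linarith [(h1 j).2, (h2 j).1]
    have b3 : (c.1 j : ℝ) < P k j + w k := by linarith [(h1 j).1, (h2 j).2]
    have b2' : P k j < c.1 j + 1 := by exact_mod_cast b2
    have b3' : c.1 j < P k j + w k := by exact_mod_cast b3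
    omega
  refine ⟨fun i => a (e i), fun i => l (e i), ?_, ?_, ?_, ?_⟩
  · intro i
    beta_reduce
    rcases e i with c | ⟨k, d⟩
    · left; rfl
    · right
      simp only [l, Sum.elim_inr, h, w]
      split_ifs
      · left; push_cast; rfl
      · right; rfl
  · intro i i' x h1 h2
    apply e.injective
    revert h1 h2
    beta_reduce
    rcases e i with c | ⟨k, d⟩ <;> rcases e i' with c' | ⟨k', d'⟩ <;> intro h1 h2 <;>
      simp only [a, l, Sum.elim_inl, Sum.elim_inr] at h1 h2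
    · congr 1
      apply Subtype.ext
      funext j
      refine cell_eq (h := 1) (t := x j) one_pos ?_ ?_ ?_ ?_ <;>
        linarith [(h1 j).1, (h1 j).2, (h2 j).1, (h2 j).2]
    · exact (mixed c k' d' x h1 h2).elim
    · exact (mixed c' k d x h2 h1).elim
    · have hk : k = k' := by
        refine hdisj k k' x (fun j => ?_) (fun j => ?_)
        · have := hin k d j
          constructor <;> linarith [(h1 j).1, (h1 j).2]
        · have := hin k' d' j
          constructor <;> linarith [(h2 j).1, (h2 j).2]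
      subst hk
      congr 2
      funext j
      apply Fin.ext
      refine cell_eq (h := h k) (t := x j - P k j) (hh k) ?_ ?_ ?_ ?_ <;>
        linarith [(h1 j).1, (h1 j).2, (h2 j).1, (h2 j).2]
  · intro i j
    beta_reduce
    rcases e i with c | ⟨k, d⟩
    · simp only [a, l, Sum.elim_inl]
      have := (Finset.mem_sdiff.mp c.2).1
      simp only [All, Fintype.mem_piFinset, Finset.mem_range] at this
      refine ⟨Nat.cast_nonneg _, ?_⟩
      exact_mod_cast this j
    · simp only [a, l, Sum.elim_inr]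
      have b1 := hin k d j
      have b2 : (P k j : ℝ) + w k ≤ m := by exact_mod_cast hP k j
      have b3 : (0 : ℝ) ≤ P k j := Nat.cast_nonneg _
      constructor <;> linarith [b1.1, b1.2]
  · intro x hx
    have : ∀ j, ∃ c : ℕ, c < m ∧ c * (1 : ℝ) ≤ x j ∧ x j ≤ (c + 1) * 1 := fun j =>
      exists_cell one_pos m hm (hx j).1 (by simpa using (hx j).2)
    choose c hc1 hc2 hc3 using this
    have hcA : c ∈ All := by simpa [All, Fintype.mem_piFinset] using hc1
    by_cases hcC : c ∈ Cov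
    · simp only [Cov, Finset.mem_biUnion, Bk, Fintype.mem_piFinset, Finset.mem_Ico] at hcC
      obtain ⟨k, -, hk⟩ := hcC
      have : ∀ j, ∃ d : ℕ, d < t + 1 ∧ d * h k ≤ x j - P k j ∧ x j - P k j ≤ (d + 1) * h k := by
        intro j
        have a1 : (P k j : ℝ) ≤ c j := by exact_mod_cast (hk j).1
        have a2 : (c j : ℝ) + 1 ≤ P k j + w k := by exact_mod_cast (hk j).2
        refine exists_cell (hh k) (t + 1) (by omega) ?_ ?_
        · linarith [hc2 j]
        · rw [hht]; linarith [hc3 j]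
      choose d hd1 hd2 hd3 using this
      refine ⟨e.symm (Sum.inr (k, fun j => ⟨d j, hd1 j⟩)), fun j => ?_⟩
      simp only [Equiv.apply_symm_apply, a, l, Sum.elim_inr]
      constructor <;> linarith [hd2 j, hd3 j]
    · refine ⟨e.symm (Sum.inl ⟨c, Finset.mem_sdiff.mpr ⟨hcA, hcC⟩⟩), fun j => ?_⟩
      simp only [Equiv.apply_symm_apply, a, l, Sum.elim_inl]
      constructor <;> linarith [hc2 j, hc3 j]

end Pool.Agent.H.MP_695dce_co
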